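import Mathlib

/-!
The helix points `(ζ^n, i^n)`, `ζ = exp(iπ/(2k))`, in a four-dimensional real space: an operator
close to the first coordinate attains its norm only at helix points.
-/

open Complex
open scoped ComplexConjugate

namespace Pool.Agent.Lib.MP_b6bd4b_an.Helix

/-- `ζ = exp(iπ/(2k))` -/
noncomputable def zt (k : ℕ) : ℂ := exp ((Real.pi / (2 * k) : ℝ) * I)

theorem zt_ne (k : ℕ) : zt k ≠ 0 := exp_ne_zero _

theorem zt_zpow (k : ℕ) (n : ℤ) : zt k ^ n = exp (((n * (Real.pi / (2 * k)) : ℝ)) * I) := by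
  rw [zt, ← exp_int_mul]
  congr 1
  push_cast
  ring

theorem norm_zt_zpow (k : ℕ) (n : ℤ) : ‖zt k ^ n‖ = 1 := by
  rw [zt_zpow, norm_exp_ofReal_mul_I]

theorem norm_I_zpow (n : ℤ) : ‖(I : ℂ) ^ n‖ = 1 := by
  rw [norm_zpow, norm_I, one_zpow]

theorem zt_pow_k {k : ℕ} (hk : 0 < k) : zt k ^ (k : ℤ) = I := by
  rw [zt_zpow]
  have h : (((k : ℤ) : ℝ) * (Real.pi / (2 * k)) : ℝ) = Real.pi / 2 := by
    have : (k : ℝ) ≠ 0 := by positivity
    push_cast
    field_simp
  rw [h]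
  push_cast
  exact exp_pi_div_two_mul_I

theorem zt_pow_four {k : ℕ} (hk : 0 < k) : zt k ^ (4 * k : ℤ) = 1 := by
  have : (4 * k : ℤ) = k * 4 := by ring
  rw [this, zpow_mul, zt_pow_k hk]
  norm_num [zpow_ofNat, I_pow_four]

theorem zt_pow_two {k : ℕ} (hk : 0 < k) : zt k ^ (2 * k : ℤ) = -1 := by
  have : (2 * k : ℤ) = k * 2 := by ring
  rw [this, zpow_mul, zt_pow_k hk]
  norm_num [zpow_ofNat]

theorem I_zpow_eq {k : ℕ} (hk : 0 < k) (n : ℤ) : (I : ℂ) ^ n = (zt k ^ n) ^ (k : ℤ) := by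
  rw [← zpow_mul, mul_comm, zpow_mul, zt_pow_k hk]

theorem I_zpow_add_two (m : ℤ) : (I : ℂ) ^ (m + 2) = - I ^ m := by
  rw [zpow_add₀ I_ne_zero]
  norm_num [zpow_ofNat]

theorem I_zpow_add_four (m : ℤ) : (I : ℂ) ^ (m + 4) = I ^ m := by
  rw [zpow_add₀ I_ne_zero]
  norm_num [zpow_ofNat, I_pow_four]

theorem I_zpow_two_k {k : ℕ} (hodd : Odd k) : (I : ℂ) ^ (2 * k : ℤ) = -1 := by
  rw [zpow_mul]
  have : (I : ℂ) ^ (2 : ℤ) = -1 := by norm_num [zpow_ofNat]
  rw [this, zpow_natCast]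
  exact hodd.neg_one_pow

/-- distinct powers of `ζ` are at distance at least `1/k` -/
theorem sep {k : ℕ} (hk : 0 < k) (m n : ℤ) (h : zt k ^ m ≠ zt k ^ n) :
    1 / (k : ℝ) ≤ ‖zt k ^ m - zt k ^ n‖ := by
  have hk' : (0 : ℝ) < k := by exact_mod_cast hk
  have h0 : ‖zt k ^ m - zt k ^ n‖ = ‖zt k ^ (m - n) - 1‖ := by
    have : zt k ^ m - zt k ^ n = zt k ^ n * (zt k ^ (m - n) - 1) := by
      rw [mul_sub, ← zpow_add₀ (zt_ne k)]
      simp
    rw [this, norm_mul, norm_zt_zpow, one_mul]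
  have h1 : zt k ^ (m - n) ≠ 1 := by
    intro h1
    apply h
    have : zt k ^ m = zt k ^ n * zt k ^ (m - n) := by
      rw [← zpow_add₀ (zt_ne k)]; simp
    rw [this, h1, mul_one]
  -- reduce modulo `4k`
  set r : ℤ := (m - n) % (4 * k) with hr
  have h4 : (0 : ℤ) < 4 * k := by positivity
  have hr0 : 0 ≤ r := Int.emod_nonneg _ h4.ne'
  have hr4 : r < 4 * k := Int.emod_lt_of_pos _ h4
  have hrz : zt k ^ (m - n) = zt k ^ r := by
    have h5 : m - n = (4 * k) * ((m - n) / (4 * k)) + r := (Int.mul_ediv_add_emod _ _).symm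
    conv_lhs => rw [h5]
    rw [zpow_add₀ (zt_ne k), zpow_mul, zt_pow_four hk, one_zpow, one_mul]
  have hrne : r ≠ 0 := by
    intro h6
    apply h1
    rw [hrz, h6, zpow_zero]
  have hr1 : 1 ≤ r := by omega
  rw [h0, hrz]
  -- `‖ζ^r - 1‖ = 2 sin(r π / (4k))`
  have h7 : ‖zt k ^ r - 1‖ = 2 * Real.sin (r * (Real.pi / (4 * k))) := by
    have h8 : zt k ^ r - 1 = exp (((r * (Real.pi / (4 * k)) : ℝ)) * I)
        * (2 * Real.sin (r * (Real.pi / (4 * k))) * I) := by
      rw [zt_zpow]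
      have h9 : (r * (Real.pi / (2 * k)) : ℝ) = 2 * (r * (Real.pi / (4 * k))) := by
        field_simp; ring
      rw [h9]
      set θ : ℝ := r * (Real.pi / (4 * k))
      rw [exp_mul_I, exp_mul_I]
      push_cast
      rw [Complex.cos_two_mul, Complex.sin_two_mul]
      have h10 : Complex.sin (θ : ℂ) ^ 2 = 1 - Complex.cos θ ^ 2 := by
        rw [← Complex.sin_sq_add_cos_sq (θ : ℂ)]; ring
      ring_nf
      rw [I_sq, h10]
      ring
    have h11 : 0 ≤ Real.sin (r * (Real.pi / (4 * k))) := by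
      apply Real.sin_nonneg_of_nonneg_of_le_pi
      · have : (0 : ℝ) ≤ r := by exact_mod_cast hr0
        positivity
      · have : (r : ℝ) ≤ 4 * k := by exact_mod_cast hr4.le
        calc r * (Real.pi / (4 * k)) ≤ (4 * k) * (Real.pi / (4 * k)) := by gcongr
          _ = Real.pi := by field_simp
    rw [h8, norm_mul, norm_exp_ofReal_mul_I, one_mul, norm_mul, norm_I, mul_one, norm_mul]
    rw [Complex.norm_real, Real.norm_of_nonneg h11]
    norm_num
  rw [h7]
  have hr1' : (1 : ℝ) ≤ r := by exact_mod_cast hr1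
  have hr4' : (r : ℝ) ≤ 4 * k - 1 := by
    have : r ≤ 4 * k - 1 := by omega
    exact_mod_cast this
  have hpi := Real.pi_pos
  rcases le_total (r : ℝ) (2 * k) with h12 | h12
  · have h13 := Real.mul_le_sin (x := r * (Real.pi / (4 * k))) (by positivity) (by
      calc r * (Real.pi / (4 * k)) ≤ (2 * k) * (Real.pi / (4 * k)) := by gcongr
        _ = Real.pi / 2 := by field_simp; ring)
    have h14 : 2 / Real.pi * (r * (Real.pi / (4 * k))) = r / (2 * k) := by field_simp; ring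
    rw [h14] at h13
    have h15 : 1 / (2 * (k : ℝ)) ≤ r / (2 * k) := by gcongr
    have h16 : 1 / (k : ℝ) = 2 * (1 / (2 * k)) := by field_simp
    rw [h16]; linarith
  · have h17 : Real.sin (r * (Real.pi / (4 * k))) = Real.sin ((4 * k - r) * (Real.pi / (4 * k))) := by
      rw [← Real.sin_pi_sub]
      congr 1
      field_simp
    rw [h17]
    have h13 := Real.mul_le_sin (x := (4 * k - r) * (Real.pi / (4 * k))) (by
        have : (0 : ℝ) ≤ 4 * k - r := by linarith
        positivity) (by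
      calc (4 * k - r) * (Real.pi / (4 * k)) ≤ (2 * k) * (Real.pi / (4 * k)) := by
            gcongr; linarith
        _ = Real.pi / 2 := by field_simp; ring)
    have h14 : 2 / Real.pi * ((4 * k - r) * (Real.pi / (4 * k))) = (4 * k - r) / (2 * k) := by
      field_simp; ring
    rw [h14] at h13
    have h15 : 1 / (2 * (k : ℝ)) ≤ (4 * k - r) / (2 * k) := by gcongr; linarith
    have h16 : 1 / (k : ℝ) = 2 * (1 / (2 * k)) := by field_simp
    rw [h16]; linarith

end Pool.Agent.Lib.MP_b6bd4b_an.Helix
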