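import Mathlib
import Pool.Agent.Lib.MP_b6bd4b_an.Helix

/-!
Operators close to the first coordinate of a helix space attain their norm only at helix points.
-/

open Complex
open scoped ComplexConjugate

namespace Pool.Agent.Lib.MP_b6bd4b_an.Attain

open Helix

/-- the data of a helix space -/
structure Data (k : ℕ) (Y : Type*) [NormedAddCommGroup Y] [NormedSpace ℝ Y] where
  T : Y →L[ℝ] ℂ
  N : Y →L[ℝ] ℂ
  δ : ℤ → Y
  hT : ∀ n, T (δ n) = zt k ^ n
  hN : ∀ n, N (δ n) = I ^ n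
  inj : ∀ y, T y = 0 → N y = 0 → y = 0
  hδ : ∀ n, ‖δ n‖ ≤ 1
  nT : ∀ y, ‖T y‖ ≤ ‖y‖
  nN : ∀ y, ‖N y‖ ≤ ‖y‖
  rep : ∀ y, ∃ a : Fin (4 * k) → ℝ, y = ∑ j, a j • δ (j : ℕ) ∧ ∑ j, |a j| ≤ ‖y‖

variable {k : ℕ} {Y : Type*} [NormedAddCommGroup Y] [NormedSpace ℝ Y] (D : Data k Y)

namespace Data

include D in
theorem ext' {x y : Y} (h1 : D.T x = D.T y) (h2 : D.N x = D.N y) : x = y := by
  have := D.inj (x - y) (by simp [h1]) (by simp [h2])
  exact sub_eq_zero.1 this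

/-- the noiseless unit points -/
noncomputable def P (m : ℤ) : Y :=
  (2 * Real.cos (Real.pi / (2 * k)))⁻¹ • (D.δ (m - 1) + D.δ (m + 1))

theorem cos_pos' (hk : 9 ≤ k) : (49 / 50 : ℝ) ≤ Real.cos (Real.pi / (2 * k)) := by
  have h1 := Real.one_sub_sq_div_two_le_cos (x := Real.pi / (2 * k))
  have hk' : (9 : ℝ) ≤ k := by exact_mod_cast hk
  have h2 : Real.pi / (2 * k) ≤ 3.15 / 18 := by
    have := Real.pi_lt_d2
    rw [div_le_div_iff₀ (by positivity) (by norm_num)]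
    nlinarith
  have h3 : 0 ≤ Real.pi / (2 * k) := by positivity
  nlinarith

theorem cos_k (hk : 9 ≤ k) : (9 / 10 : ℝ) ≤ Real.cos (Real.pi / k) := by
  have h1 := Real.one_sub_sq_div_two_le_cos (x := Real.pi / k)
  have hk' : (9 : ℝ) ≤ k := by exact_mod_cast hk
  have h2 : Real.pi / k ≤ 3.15 / 9 := by
    have := Real.pi_lt_d2
    rw [div_le_div_iff₀ (by positivity) (by norm_num)]
    nlinarith
  have h3 : 0 ≤ Real.pi / k := by positivity
  nlinarith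

theorem zt_add_inv : zt k ^ (-1 : ℤ) + zt k ^ (1 : ℤ) = ((2 * Real.cos (Real.pi / (2 * k)) : ℝ) : ℂ) := by
  rw [zt_zpow, zt_zpow, exp_mul_I, exp_mul_I]
  push_cast
  rw [show (-1 * ((Real.pi : ℂ) / (2 * k))) = -(1 * (Real.pi / (2 * k))) by ring, Complex.cos_neg,
    Complex.sin_neg]
  ring_nf

theorem T_P (hk : 9 ≤ k) (m : ℤ) : D.T (D.P m) = zt k ^ m := by
  have hc : (2 * Real.cos (Real.pi / (2 * k)) : ℝ) ≠ 0 := by
    have := cos_pos' hk
    positivity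
  rw [P, map_smul, map_add, D.hT, D.hT]
  have : zt k ^ (m - 1) + zt k ^ (m + 1) = zt k ^ m * (zt k ^ (-1 : ℤ) + zt k ^ (1 : ℤ)) := by
    rw [mul_add, ← zpow_add₀ (zt_ne k), ← zpow_add₀ (zt_ne k)]
    rfl
  rw [this, zt_add_inv, Complex.real_smul, Complex.ofReal_inv]
  have hc' : (((2 * Real.cos (Real.pi / (2 * k)) : ℝ)) : ℂ) ≠ 0 := by exact_mod_cast hc
  rw [mul_comm (zt k ^ m), ← mul_assoc, inv_mul_cancel₀ hc', one_mul]

theorem N_P (m : ℤ) : D.N (D.P m) = 0 := by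
  rw [P, map_smul, map_add, D.hN, D.hN]
  have : m + 1 = (m - 1) + 2 := by ring
  rw [this, I_zpow_add_two]
  simp

theorem norm_P (hk : 9 ≤ k) (m : ℤ) : ‖D.P m‖ ≤ (Real.cos (Real.pi / (2 * k)))⁻¹ := by
  have hc := cos_pos' hk
  have hc0 : 0 < Real.cos (Real.pi / (2 * k)) := by linarith
  rw [P, norm_smul, Real.norm_of_nonneg (by positivity)]
  have h1 : ‖D.δ (m - 1) + D.δ (m + 1)‖ ≤ 2 := by
    have := norm_add_le (D.δ (m - 1)) (D.δ (m + 1))
    have h2 := D.hδ (m - 1)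
    have h3 := D.hδ (m + 1)
    linarith
  calc (2 * Real.cos (Real.pi / (2 * k)))⁻¹ * ‖D.δ (m - 1) + D.δ (m + 1)‖
      ≤ (2 * Real.cos (Real.pi / (2 * k)))⁻¹ * 2 := by gcongr
    _ = (Real.cos (Real.pi / (2 * k)))⁻¹ := by field_simp

/-- the noiseless points -/
noncomputable def E (u : ℂ) : Y := u.re • D.P 0 + u.im • D.P k

theorem T_E (hk : 9 ≤ k) (u : ℂ) : D.T (D.E u) = u := by
  rw [E, map_add, map_smul, map_smul, D.T_P hk, D.T_P hk, zpow_zero, zt_pow_k (by omega)]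
  simp [Complex.real_smul]

theorem N_E (u : ℂ) : D.N (D.E u) = 0 := by
  rw [E, map_add, map_smul, map_smul, D.N_P, D.N_P]
  simp

theorem E_zt (hk : 9 ≤ k) (m : ℤ) : D.E (zt k ^ m) = D.P m :=
  D.ext' (by rw [D.T_E hk, D.T_P hk]) (by rw [D.N_E, D.N_P])

theorem E_add (u v : ℂ) : D.E (u + v) = D.E u + D.E v := by
  simp only [E, add_re, add_im, add_smul]
  abel

theorem E_smul (r : ℝ) (u : ℂ) : D.E (r * u) = r • D.E u := by
  simp only [E, re_ofReal_mul, im_ofReal_mul, smul_add, smul_smul]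

theorem δ_neg (hk : 9 ≤ k) (hodd : Odd k) (n : ℤ) : D.δ (n + 2 * k) = - D.δ n := by
  apply D.ext'
  · rw [D.hT, map_neg, D.hT, zpow_add₀ (zt_ne k), zt_pow_two (by omega)]
    ring
  · rw [D.hN, map_neg, D.hN, zpow_add₀ I_ne_zero, I_zpow_two_k hodd]
    ring

theorem δ_eq (hk : 9 ≤ k) {m n : ℤ} (h : zt k ^ m = zt k ^ n) : D.δ m = D.δ n := by
  apply D.ext'
  · rw [D.hT, D.hT, h]
  · rw [D.hN, D.hN, I_zpow_eq (k := k) (by omega), I_zpow_eq (k := k) (by omega) n, h]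

theorem δ_shift (hk : 9 ≤ k) (m n : ℤ) (h : (I : ℂ) ^ m = I ^ n) :
    D.δ m = D.δ n + D.E (zt k ^ m - zt k ^ n) := by
  apply D.ext'
  · rw [map_add, D.T_E hk, D.hT, D.hT]; ring
  · rw [map_add, D.N_E, D.hN, D.hN, h]; ring

end Data

/-- `ζ^{m+4} - ζ^m` -/
theorem zt_shift_add (m : ℤ) : zt k ^ (m + 4) - zt k ^ m
    = ((2 * Real.sin (Real.pi / k) * Real.cos (Real.pi / k) : ℝ) : ℂ) * (I * zt k ^ m)
      + ((- (2 * Real.sin (Real.pi / k) * Real.sin (Real.pi / k)) : ℝ) : ℂ) * zt k ^ m := by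
  have h : zt k ^ (m + 4) = zt k ^ m * zt k ^ (4 : ℤ) := by rw [zpow_add₀ (zt_ne k)]
  rw [h, zt_zpow k 4]
  have h1 : (((4 : ℤ) : ℝ) * (Real.pi / (2 * k)) : ℝ) = 2 * (Real.pi / k) := by
    push_cast
    ring
  rw [h1, exp_mul_I]
  push_cast
  rw [Complex.cos_two_mul, Complex.sin_two_mul]
  have h10 : Complex.cos ((Real.pi : ℂ) / k) ^ 2 = 1 - Complex.sin (Real.pi / k) ^ 2 := by
    rw [← Complex.sin_sq_add_cos_sq ((Real.pi : ℂ) / k)]; ring
  rw [h10]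
  ring

theorem zt_shift_sub (m : ℤ) : zt k ^ (m - 4) - zt k ^ m
    = ((- (2 * Real.sin (Real.pi / k) * Real.cos (Real.pi / k)) : ℝ) : ℂ) * (I * zt k ^ m)
      + ((- (2 * Real.sin (Real.pi / k) * Real.sin (Real.pi / k)) : ℝ) : ℂ) * zt k ^ m := by
  have h : zt k ^ (m - 4) = zt k ^ m * zt k ^ (-4 : ℤ) := by
    rw [← zpow_add₀ (zt_ne k)]; rfl
  rw [h, zt_zpow k (-4)]
  have h1 : (((-4 : ℤ) : ℝ) * (Real.pi / (2 * k)) : ℝ) = - (2 * (Real.pi / k)) := by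
    push_cast
    ring
  rw [h1, exp_mul_I]
  push_cast
  rw [Complex.cos_neg, Complex.sin_neg, Complex.cos_two_mul, Complex.sin_two_mul]
  have h10 : Complex.cos ((Real.pi : ℂ) / k) ^ 2 = 1 - Complex.sin (Real.pi / k) ^ 2 := by
    rw [← Complex.sin_sq_add_cos_sq ((Real.pi : ℂ) / k)]; ring
  rw [h10]
  ring


theorem zt_two (m : ℤ) : zt k ^ (m + 2) = ((Real.cos (Real.pi / k) : ℝ) : ℂ) * zt k ^ m
      + ((Real.sin (Real.pi / k) : ℝ) : ℂ) * (I * zt k ^ m) := by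
  have h : zt k ^ (m + 2) = zt k ^ m * zt k ^ (2 : ℤ) := by rw [zpow_add₀ (zt_ne k)]
  rw [h, zt_zpow k 2]
  have h1 : (((2 : ℤ) : ℝ) * (Real.pi / (2 * k)) : ℝ) = Real.pi / k := by
    push_cast
    ring
  rw [h1, exp_mul_I]
  push_cast
  ring

theorem zt_neg_two (m : ℤ) : zt k ^ (m - 2) = ((Real.cos (Real.pi / k) : ℝ) : ℂ) * zt k ^ m
      + ((- Real.sin (Real.pi / k) : ℝ) : ℂ) * (I * zt k ^ m) := by
  have h : zt k ^ (m - 2) = zt k ^ m * zt k ^ (-2 : ℤ) := by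
    rw [← zpow_add₀ (zt_ne k)]; rfl
  rw [h, zt_zpow k (-2)]
  have h1 : (((-2 : ℤ) : ℝ) * (Real.pi / (2 * k)) : ℝ) = - (Real.pi / k) := by
    push_cast
    ring
  rw [h1, exp_mul_I]
  push_cast
  rw [Complex.cos_neg, Complex.sin_neg]
  ring

theorem zt_add_k (hk : 9 ≤ k) (m : ℤ) : zt k ^ (m + k) = I * zt k ^ m := by
  rw [zpow_add₀ (zt_ne k), zt_pow_k (by omega), mul_comm]

open scoped InnerProductSpace

theorem quad_aux {R s x b : ℝ} (hs : 0 < s) (hb : 48 / 49 ≤ b)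
    (h : R ^ 2 + 2 * (R * (2 * s * x)) + (2 * s * b) ^ 2 ≤ R ^ 2) :
    R * x ≤ -(s * (48 / 49) ^ 2) := by
  have h7 : (48 / 49 : ℝ) ^ 2 ≤ b ^ 2 := by gcongr
  have h8 : 4 * s * (R * x + s * b ^ 2) ≤ 0 := by nlinarith
  have h9 : R * x + s * b ^ 2 ≤ 0 := by
    by_contra h10
    push Not at h10
    have : 0 < 4 * s * (R * x + s * b ^ 2) := by positivity
    linarith
  have h10 : s * (48 / 49) ^ 2 ≤ s * b ^ 2 := by gcongr
  linarith

theorem concl_aux {R s c p q K : ℝ} (hR : R ≤ 51 / 50) (hRlow : 49 / 50 ≤ R) (hs0 : 0 < s)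
    (hK : 0 < K) (hs1 : s ≤ 3.15 / K) (hc9 : 9 / 10 ≤ c) (hq0 : 0 ≤ q) (hqup : q ≤ 50 / 49)
    (hn1 : R * (c * p - s * q) ≤ -(s * (48 / 49) ^ 2))
    (hn2 : s * (48 / 49) ^ 2 ≤ R * (c * p + s * q)) : |p| ≤ 3 / 10 / K := by
  have h0 : R * q ≤ 51 / 49 := by
    calc R * q ≤ 51 / 50 * (50 / 49) := by gcongr
      _ = 51 / 49 := by norm_num
  have hsq : R * (s * q) ≤ s * (51 / 49) := by
    calc R * (s * q) = s * (R * q) := by ring
      _ ≤ s * (51 / 49) := by gcongr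
  have h1 : R * (c * p) ≤ s * (195 / 2401) := by
    have : R * (c * p - s * q) = R * (c * p) - R * (s * q) := by ring
    rw [this] at hn1
    linarith
  have h2 : - (s * (195 / 2401)) ≤ R * (c * p) := by
    have : R * (c * p + s * q) = R * (c * p) + R * (s * q) := by ring
    rw [this] at hn2
    linarith
  have hRc : 0.88 ≤ R * c := by
    calc (0.88 : ℝ) ≤ 49 / 50 * (9 / 10) := by norm_num
      _ ≤ R * c := by gcongr
  have h3 : 0.88 * |p| ≤ s * (195 / 2401) := by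
    have h4 : |R * (c * p)| ≤ s * (195 / 2401) := abs_le.2 ⟨h2, h1⟩
    have h5 : |R * (c * p)| = (R * c) * |p| := by
      rw [← mul_assoc, abs_mul, abs_of_nonneg (by positivity : 0 ≤ R * c)]
    rw [h5] at h4
    have h6 := abs_nonneg p
    calc 0.88 * |p| ≤ (R * c) * |p| := by gcongr
      _ ≤ _ := h4
  have h7 : |p| ≤ s * (93 / 1000) := by linarith
  calc |p| ≤ s * (93 / 1000) := h7
    _ ≤ 3.15 / K * (93 / 1000) := by gcongr
    _ ≤ 3 / 10 / K := by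
      rw [div_mul_eq_mul_div, div_le_div_iff_of_pos_right (by positivity)]
      norm_num

/-- The two slopes at an attaining helix point. -/
theorem slope (hk : 9 ≤ k) (S : Y →L[ℝ] ℂ) {R : ℝ} (hR : R ≤ 51 / 50)
    (hS : ∀ y, ‖S y‖ ≤ R * ‖y‖) (hST : ∀ y, ‖S y - D.T y‖ ≤ 1 / 50 * ‖y‖) {w : ℂ} (hw : ‖w‖ = 1)
    (m : ℤ) (hm : S (D.δ m) = R • w) :
    9 / 10 ≤ ⟪w, S (D.E (zt k ^ m))⟫_ℝ ∧ 96 / 100 ≤ ⟪w, zt k ^ m⟫_ℝ ∧
      |⟪w, S (D.E (zt k ^ (m + k)))⟫_ℝ| ≤ 3 / 10 / k := by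
  have hk' : (9 : ℝ) ≤ k := by exact_mod_cast hk
  have hAm : ∀ n : ℤ, ‖S (D.E (zt k ^ n)) - zt k ^ n‖ ≤ 1 / 49 := by
    intro n
    have h1 := hST (D.E (zt k ^ n))
    rw [D.T_E hk] at h1
    have h2 := D.norm_P hk n
    rw [← D.E_zt hk] at h2
    have h3 : (Real.cos (Real.pi / (2 * k)))⁻¹ ≤ 50 / 49 := by
      have h4 := Data.cos_pos' hk
      rw [inv_le_comm₀ (by linarith) (by norm_num)]
      linarith
    linarith
  have hAlow : ∀ n : ℤ, 48 / 49 ≤ ‖S (D.E (zt k ^ n))‖ := by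
    intro n
    have h1 := hAm n
    have h2 := norm_zt_zpow k n
    have h3 := norm_sub_norm_le (zt k ^ n) (S (D.E (zt k ^ n)))
    rw [norm_sub_rev] at h3
    linarith
  have hAup : ∀ n : ℤ, ‖S (D.E (zt k ^ n))‖ ≤ 50 / 49 := by
    intro n
    have h1 := hAm n
    have h2 := norm_zt_zpow k n
    have h3 := norm_sub_norm_le (S (D.E (zt k ^ n))) (zt k ^ n)
    linarith
  have hRlow : 49 / 50 ≤ R := by
    have h1 := hST (D.δ m)
    rw [D.hT] at h1
    have h2 := D.hδ m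
    have h3 := norm_sub_norm_le (zt k ^ m) (S (D.δ m))
    rw [norm_sub_rev, norm_zt_zpow] at h3
    have h4 := hS (D.δ m)
    have h5 : 0 ≤ ‖D.δ m‖ := norm_nonneg _
    have h6 : ‖S (D.δ m)‖ = |R| := by rw [hm, norm_smul, hw, mul_one, Real.norm_eq_abs]
    have h7 : 0 ≤ R := by
      by_contra h8
      push Not at h8
      have : R * ‖D.δ m‖ ≤ 0 := mul_nonpos_of_nonpos_of_nonneg h8.le h5
      have h9 : (0 : ℝ) < |R| := abs_pos.2 h8.ne
      linarith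
    rw [abs_of_nonneg h7] at h6
    linarith
  have hww : ⟪w, w⟫_ℝ = 1 := by rw [real_inner_self_eq_norm_sq, hw]; norm_num
  -- closeness of `w` and `ζ^m`
  have hwz : 96 / 100 ≤ ⟪w, zt k ^ m⟫_ℝ := by
    have h1 := hST (D.δ m)
    rw [D.hT] at h1
    have h2 := D.hδ m
    have h3 : zt k ^ m = S (D.δ m) - (S (D.δ m) - zt k ^ m) := by ring
    rw [h3, inner_sub_right]
    have h4 : ⟪w, S (D.δ m)⟫_ℝ = R := by
      rw [hm, inner_smul_right, hww, mul_one]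
    have h5 := abs_real_inner_le_norm w (S (D.δ m) - zt k ^ m)
    rw [hw, one_mul] at h5
    have h6 := (abs_le.1 h5).2
    linarith
  have hq : 9 / 10 ≤ ⟪w, S (D.E (zt k ^ m))⟫_ℝ := by
    have h3 : S (D.E (zt k ^ m)) = zt k ^ m + (S (D.E (zt k ^ m)) - zt k ^ m) := by ring
    rw [h3, inner_add_right]
    have h5 := abs_real_inner_le_norm w (S (D.E (zt k ^ m)) - zt k ^ m)
    rw [hw, one_mul] at h5
    have h6 := (abs_le.1 h5).1
    have h7 := hAm m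
    linarith
  refine ⟨hq, hwz, ?_⟩
  set s : ℝ := Real.sin (Real.pi / k) with hs
  set c : ℝ := Real.cos (Real.pi / k) with hc
  have hc9 : 9 / 10 ≤ c := Data.cos_k hk
  have hpi := Real.pi_pos
  have hs0 : 0 < s := by
    apply Real.sin_pos_of_pos_of_lt_pi (by positivity)
    rw [div_lt_iff₀ (by positivity)]
    nlinarith
  have hs1 : s ≤ 3.15 / k := by
    have h1 : s ≤ Real.pi / k := Real.sin_le (by positivity)
    have h2 : Real.pi / k ≤ 3.15 / k := by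
      have := Real.pi_lt_d2
      gcongr
    exact h1.trans h2
  set p : ℝ := ⟪w, S (D.E (zt k ^ (m + k)))⟫_ℝ with hp
  set q : ℝ := ⟪w, S (D.E (zt k ^ m))⟫_ℝ with hq'
  have hqup : q ≤ 50 / 49 := by
    have h5 := abs_real_inner_le_norm w (S (D.E (zt k ^ m)))
    rw [hw, one_mul] at h5
    have h6 := (abs_le.1 h5).2
    exact h6.trans (hAup m)
  -- the forward point
  have hB1 : ⟪w, S (D.E (zt k ^ (m + 2 + k)))⟫_ℝ = c * p - s * q := by
    have h1 : zt k ^ (m + 2 + k) = ((c : ℝ) : ℂ) * zt k ^ (m + k) + ((-s : ℝ) : ℂ) * zt k ^ m := by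
      rw [zt_add_k hk, zt_two, zt_add_k hk]
      simp only [ofReal_neg, ofReal_mul, ofReal_ofNat]
      have : I * I = -1 := I_mul_I
      linear_combination ((s : ℝ) : ℂ) * zt k ^ m * this
    rw [h1, D.E_add, D.E_smul, D.E_smul, map_add, map_smul, map_smul, inner_add_right,
      inner_smul_right, inner_smul_right]
    ring
  have hB2 : ⟪w, S (D.E (zt k ^ (m - 2 + k)))⟫_ℝ = c * p + s * q := by
    have h1 : zt k ^ (m - 2 + k) = ((c : ℝ) : ℂ) * zt k ^ (m + k) + ((s : ℝ) : ℂ) * zt k ^ m := by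
      rw [zt_add_k hk, zt_neg_two, zt_add_k hk]
      simp only [ofReal_neg, ofReal_mul, ofReal_ofNat]
      have : I * I = -1 := I_mul_I
      linear_combination (-(s : ℝ) : ℂ) * zt k ^ m * this
    rw [h1, D.E_add, D.E_smul, D.E_smul, map_add, map_smul, map_smul, inner_add_right,
      inner_smul_right, inner_smul_right]
  have hD1 : S (D.δ (m + 4)) = R • w + (2 * s) • S (D.E (zt k ^ (m + 2 + k))) := by
    rw [D.δ_shift hk (m + 4) m (I_zpow_add_four m), map_add, hm]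
    congr 1
    rw [← map_smul, ← D.E_smul]
    congr 2
    rw [zt_shift_add, zt_add_k hk, zt_two]
    simp only [ofReal_neg, ofReal_mul, ofReal_ofNat]
    have : I * I = -1 := I_mul_I
    linear_combination (-2 * ((s : ℝ) : ℂ) ^ 2 * zt k ^ m) * this
  have hD2 : S (D.δ (m - 4)) = R • w + (-(2 * s)) • S (D.E (zt k ^ (m - 2 + k))) := by
    have h0 : (I : ℂ) ^ (m - 4) = I ^ m := by
      have := I_zpow_add_four (m - 4)
      rw [← this]; ring_nf
    rw [D.δ_shift hk (m - 4) m h0, map_add, hm]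
    congr 1
    rw [← map_smul, ← D.E_smul]
    congr 2
    rw [zt_shift_sub, zt_add_k hk, zt_neg_two]
    simp only [ofReal_neg, ofReal_mul, ofReal_ofNat]
    have : I * I = -1 := I_mul_I
    linear_combination (-2 * ((s : ℝ) : ℂ) ^ 2 * zt k ^ m) * this
  have hn1 : R * (c * p - s * q) ≤ -(s * (48 / 49) ^ 2) := by
    have h1 : ‖R • w + (2 * s) • S (D.E (zt k ^ (m + 2 + k)))‖ ≤ R := by
      rw [← hD1]
      have h2 := hS (D.δ (m + 4))
      have h3 := D.hδ (m + 4)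
      calc _ ≤ R * ‖D.δ (m + 4)‖ := h2
        _ ≤ R * 1 := by gcongr
        _ = R := mul_one R
    have h4 := norm_add_sq_real (R • w) ((2 * s) • S (D.E (zt k ^ (m + 2 + k))))
    rw [inner_smul_left, inner_smul_right, hB1, norm_smul, norm_smul, hw, mul_one,
      Real.norm_of_nonneg (by linarith : 0 ≤ R), Real.norm_of_nonneg (by positivity)] at h4
    have h6 : ‖R • w + (2 * s) • S (D.E (zt k ^ (m + 2 + k)))‖ ^ 2 ≤ R ^ 2 := by
      gcongr
    rw [h4] at h6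
    simp only [conj_trivial] at h6
    exact quad_aux hs0 (hAlow (m + 2 + k)) h6
  have hn2 : s * (48 / 49) ^ 2 ≤ R * (c * p + s * q) := by
    have h1 : ‖R • w + (-(2 * s)) • S (D.E (zt k ^ (m - 2 + k)))‖ ≤ R := by
      rw [← hD2]
      have h2 := hS (D.δ (m - 4))
      have h3 := D.hδ (m - 4)
      calc _ ≤ R * ‖D.δ (m - 4)‖ := h2
        _ ≤ R * 1 := by gcongr
        _ = R := mul_one R
    have h4 := norm_add_sq_real (R • w) ((-(2 * s)) • S (D.E (zt k ^ (m - 2 + k))))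
    rw [inner_smul_left, inner_smul_right, hB2, norm_smul, norm_smul, hw, mul_one,
      Real.norm_of_nonneg (by linarith : 0 ≤ R), norm_neg,
      Real.norm_of_nonneg (by positivity : 0 ≤ 2 * s)] at h4
    have h6 : ‖R • w + (-(2 * s)) • S (D.E (zt k ^ (m - 2 + k)))‖ ^ 2 ≤ R ^ 2 := by
      gcongr
    rw [h4] at h6
    simp only [conj_trivial] at h6
    have h8 := quad_aux (R := R) (x := -(c * p + s * q)) hs0 (hAlow (m - 2 + k))
      (by linarith)
    linarith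
  exact concl_aux hR hRlow hs0 (by positivity) hs1 hc9 (by linarith) hqup hn1 hn2

/-- for unit complex numbers `i (a - b)` is a real multiple of `a + b` -/
theorem tangent {a b : ℂ} (ha : ‖a‖ = 1) (hb : ‖b‖ = 1) (hab : a + b ≠ 0) :
    ∃ t : ℝ, I * (a - b) = t * (a + b) := by
  have hn : (Complex.normSq (a + b)) ≠ 0 := by simpa [Complex.normSq_eq_zero] using hab
  refine ⟨(-2 * (a * conj b).im) / Complex.normSq (a + b), ?_⟩
  have hn' : ((Complex.normSq (a + b) : ℝ) : ℂ) ≠ 0 := by exact_mod_cast hn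
  rw [ofReal_div, div_mul_eq_mul_div, eq_div_iff hn']
  have h1 : a.re ^ 2 + a.im ^ 2 = 1 := by
    have := Complex.sq_norm a
    rw [ha, Complex.normSq_apply] at this
    linarith
  have h2 : b.re ^ 2 + b.im ^ 2 = 1 := by
    have := Complex.sq_norm b
    rw [hb, Complex.normSq_apply] at this
    linarith
  apply Complex.ext
  · simp only [mul_re, mul_im, I_re, I_im, sub_re, sub_im, add_re, add_im, ofReal_re, ofReal_im,
      Complex.normSq_apply, conj_re, conj_im]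
    linear_combination (-(a.im) - b.im) * h1 + (a.im + b.im) * h2
  · simp only [mul_re, mul_im, I_re, I_im, sub_re, sub_im, add_re, add_im, ofReal_re, ofReal_im,
      Complex.normSq_apply, conj_re, conj_im]
    linear_combination (a.re + b.re) * h1 - (a.re + b.re) * h2

/-- two attaining helix points with the same value coincide -/
theorem unique (hk : 9 ≤ k) (S : Y →L[ℝ] ℂ) {R : ℝ} (hR : R ≤ 51 / 50)
    (hS : ∀ y, ‖S y‖ ≤ R * ‖y‖) (hST : ∀ y, ‖S y - D.T y‖ ≤ 1 / 50 * ‖y‖) {w : ℂ} (hw : ‖w‖ = 1)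
    (m n : ℤ) (hm : S (D.δ m) = R • w) (hn : S (D.δ n) = R • w) :
    D.δ m = D.δ n := by
  have hk0 : (0 : ℝ) < k := by
    have : (9 : ℝ) ≤ k := by exact_mod_cast hk
    linarith
  obtain ⟨q1, w1, p1⟩ := slope D hk S hR hS hST hw m hm
  obtain ⟨q2, w2, p2⟩ := slope D hk S hR hS hST hw n hn
  apply D.δ_eq hk
  by_contra hne
  have hsep := sep (by omega : 0 < k) m n hne
  set a := zt k ^ m with ha
  set b := zt k ^ n with hb
  have hab : a + b ≠ 0 := by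
    intro h
    have h1 : ⟪w, a + b⟫_ℝ = 0 := by rw [h, inner_zero_right]
    rw [inner_add_right] at h1
    linarith
  obtain ⟨t, ht⟩ := tangent (norm_zt_zpow k m) (norm_zt_zpow k n) hab
  have h1 : zt k ^ (m + k) = I * a := zt_add_k hk m
  have h2 : zt k ^ (n + k) = I * b := zt_add_k hk n
  rw [h1] at p1
  rw [h2] at p2
  have h3 : ⟪w, S (D.E (I * a))⟫_ℝ - ⟪w, S (D.E (I * b))⟫_ℝ
      = t * (⟪w, S (D.E a)⟫_ℝ + ⟪w, S (D.E b)⟫_ℝ) := by
    have h4 : D.E (I * a) = D.E (I * b) + t • (D.E a + D.E b) := by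
      rw [← D.E_add, ← D.E_smul, ← D.E_add, ← ht]
      congr 1
      ring
    rw [h4, map_add, map_smul, map_add, inner_add_right, inner_smul_right, inner_add_right]
    ring
  have h5 : ‖a - b‖ ≤ 2 * |t| := by
    have h6 : ‖I * (a - b)‖ = ‖(t : ℂ) * (a + b)‖ := by rw [ht]
    rw [norm_mul, norm_mul, norm_I, one_mul, Complex.norm_real, Real.norm_eq_abs] at h6
    have h7 : ‖a + b‖ ≤ 2 := by
      have := norm_add_le a b
      rw [ha, hb, norm_zt_zpow, norm_zt_zpow] at this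
      linarith
    have h8 := abs_nonneg t
    rw [h6]
    nlinarith
  have h9 : |t| * (9 / 5) ≤ 3 / 5 / k := by
    have h10 : |t * (⟪w, S (D.E a)⟫_ℝ + ⟪w, S (D.E b)⟫_ℝ)| ≤ 3 / 5 / k := by
      rw [← h3]
      have h11 := abs_sub (⟪w, S (D.E (I * a))⟫_ℝ) (⟪w, S (D.E (I * b))⟫_ℝ)
      have h12 : (3 : ℝ) / 5 / k = 3 / 10 / k + 3 / 10 / k := by ring
      linarith
    rw [abs_mul] at h10
    have h13 : 9 / 5 ≤ |⟪w, S (D.E a)⟫_ℝ + ⟪w, S (D.E b)⟫_ℝ| := by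
      have := le_abs_self (⟪w, S (D.E a)⟫_ℝ + ⟪w, S (D.E b)⟫_ℝ)
      linarith
    have h14 := abs_nonneg t
    calc |t| * (9 / 5) ≤ |t| * |⟪w, S (D.E a)⟫_ℝ + ⟪w, S (D.E b)⟫_ℝ| := by gcongr
      _ ≤ _ := h10
  have h15 : (3 : ℝ) / 5 / k = 3 / 5 * (1 / k) := by ring
  have h16 : (0 : ℝ) < 1 / k := by positivity
  rw [h15] at h9
  linarith

/-- an operator close to `T` attains its norm only at a helix point -/
theorem attain (hk : 9 ≤ k) (hodd : Odd k) (S : Y →L[ℝ] ℂ) {R : ℝ} (hR : R ≤ 51 / 50)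
    (hS : ∀ y, ‖S y‖ ≤ R * ‖y‖) (hST : ∀ y, ‖S y - D.T y‖ ≤ 1 / 50 * ‖y‖)
    (z : Y) (hz : ‖S z‖ = R * ‖z‖) : ‖D.N z‖ = ‖z‖ := by
  by_cases hz0 : z = 0
  · simp [hz0]
  have hzn : 0 < ‖z‖ := norm_pos_iff.2 hz0
  have hRpos : 0 < R := by
    have h1 := hST (D.δ 0)
    rw [D.hT, zpow_zero] at h1
    have h2 := D.hδ 0
    have h3 := norm_sub_norm_le (1 : ℂ) (S (D.δ 0))
    rw [norm_sub_rev, norm_one] at h3
    have h4 := hS (D.δ 0)
    have h5 : 0 ≤ ‖D.δ 0‖ := norm_nonneg _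
    by_contra h8
    push Not at h8
    have : R * ‖D.δ 0‖ ≤ 0 := mul_nonpos_of_nonpos_of_nonneg h8 h5
    linarith
  have hSz : 0 < ‖S z‖ := by rw [hz]; positivity
  -- the direction
  set w : ℂ := (‖S z‖⁻¹ : ℝ) • S z with hw'
  have hw : ‖w‖ = 1 := by
    rw [hw', norm_smul, norm_inv, norm_norm, inv_mul_cancel₀ hSz.ne']
  have hwz : S z = (R * ‖z‖) • w := by
    rw [hw', smul_smul, ← hz, mul_inv_cancel₀ hSz.ne', one_smul]
  have hww : ⟪w, w⟫_ℝ = 1 := by rw [real_inner_self_eq_norm_sq, hw]; norm_num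
  obtain ⟨a, ha1, ha2⟩ := D.rep z
  -- every term is extremal
  have hterm : ∀ j : Fin (4 * k), a j * ⟪w, S (D.δ (j : ℕ))⟫_ℝ ≤ |a j| * R := by
    intro j
    have h1 := abs_real_inner_le_norm w (S (D.δ (j : ℕ)))
    rw [hw, one_mul] at h1
    have h2 := hS (D.δ (j : ℕ))
    have h3 := D.hδ (j : ℕ)
    have h4 : ‖S (D.δ (j : ℕ))‖ ≤ R := h2.trans (by nlinarith)
    calc a j * ⟪w, S (D.δ (j : ℕ))⟫_ℝ ≤ |a j * ⟪w, S (D.δ (j : ℕ))⟫_ℝ| := le_abs_self _
      _ = |a j| * |⟪w, S (D.δ (j : ℕ))⟫_ℝ| := abs_mul _ _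
      _ ≤ |a j| * R := by gcongr; exact h1.trans h4
  have hsum : ∑ j, a j * ⟪w, S (D.δ (j : ℕ))⟫_ℝ = R * ‖z‖ := by
    have h1 : ⟪w, S z⟫_ℝ = R * ‖z‖ := by
      rw [hwz, inner_smul_right, hww, mul_one]
    rw [← h1, ha1, map_sum, inner_sum]
    apply Finset.sum_congr rfl
    intro j _
    rw [map_smul, inner_smul_right]
  have heq : ∀ j : Fin (4 * k), a j * ⟪w, S (D.δ (j : ℕ))⟫_ℝ = |a j| * R := by
    have h1 : ∑ j : Fin (4 * k), |a j| * R ≤ ∑ j, a j * ⟪w, S (D.δ (j : ℕ))⟫_ℝ := by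
      rw [hsum, ← Finset.sum_mul]
      nlinarith
    have h2 : ∑ j : Fin (4 * k), (|a j| * R - a j * ⟪w, S (D.δ (j : ℕ))⟫_ℝ) = 0 := by
      apply le_antisymm
      · rw [Finset.sum_sub_distrib]; linarith
      · exact Finset.sum_nonneg fun j _ => sub_nonneg.2 (hterm j)
    have h3 := (Finset.sum_eq_zero_iff_of_nonneg (fun j _ => sub_nonneg.2 (hterm j))).1 h2
    intro j
    have := h3 j (Finset.mem_univ j)
    linarith
  have hnorm : ∑ j, |a j| = ‖z‖ := by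
    have h1 : (∑ j : Fin (4 * k), |a j|) * R = R * ‖z‖ := by
      rw [Finset.sum_mul, ← hsum]
      exact Finset.sum_congr rfl fun j _ => (heq j).symm
    have h2 : R * (∑ j : Fin (4 * k), |a j|) = R * ‖z‖ := by rw [← h1]; ring
    exact mul_left_cancel₀ hRpos.ne' h2
  -- the signed points
  have hpt : ∀ j : Fin (4 * k), a j ≠ 0 → ∃ n : ℤ, a j • D.δ (j : ℕ) = |a j| • D.δ n ∧
      S (D.δ n) = R • w := by
    intro j hj
    have hext : ∀ n : ℤ, ⟪w, S (D.δ n)⟫_ℝ = R → S (D.δ n) = R • w := by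
      intro n hn
      have h1 := hS (D.δ n)
      have h2 := D.hδ n
      have h3 : ‖S (D.δ n)‖ ≤ R := h1.trans (by nlinarith)
      have h4 := norm_sub_sq_real (S (D.δ n)) (R • w)
      rw [inner_smul_right, real_inner_comm, hn, norm_smul, hw, mul_one,
        Real.norm_of_nonneg hRpos.le] at h4
      have h5 : ‖S (D.δ n)‖ ^ 2 ≤ R ^ 2 := by gcongr
      have h6 : ‖S (D.δ n) - R • w‖ ^ 2 ≤ 0 := by rw [h4]; nlinarith
      have h7 : ‖S (D.δ n) - R • w‖ = 0 := by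
        have := norm_nonneg (S (D.δ n) - R • w)
        nlinarith
      exact sub_eq_zero.1 (norm_eq_zero.1 h7)
    rcases lt_or_gt_of_ne hj with hneg | hpos
    · refine ⟨(j : ℕ) + 2 * k, ?_, ?_⟩
      · rw [D.δ_neg hk hodd, abs_of_neg hneg]; simp
      · apply hext
        rw [D.δ_neg hk hodd, map_neg, inner_neg_right]
        have h1 := heq j
        rw [abs_of_neg hneg] at h1
        have h2 : a j * (⟪w, S (D.δ (j : ℕ))⟫_ℝ + R) = 0 := by linarith
        have h3 := (mul_eq_zero.1 h2).resolve_left hj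
        linarith
    · refine ⟨(j : ℕ), by rw [abs_of_pos hpos], ?_⟩
      apply hext
      have h1 := heq j
      rw [abs_of_pos hpos] at h1
      exact mul_left_cancel₀ hj h1
  have hex : ∃ j : Fin (4 * k), a j ≠ 0 := by
    by_contra h
    push Not at h
    apply hz0
    rw [ha1]
    exact Finset.sum_eq_zero fun j _ => by rw [h j, zero_smul]
  obtain ⟨j0, hj0⟩ := hex
  obtain ⟨n0, -, hn0⟩ := hpt j0 hj0
  have hz' : z = ‖z‖ • D.δ n0 := by
    conv_lhs => rw [ha1]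
    rw [← hnorm, Finset.sum_smul]
    apply Finset.sum_congr rfl
    intro j _
    by_cases hj : a j = 0
    · simp [hj]
    · obtain ⟨n, h1, h2⟩ := hpt j hj
      rw [h1, unique D hk S hR hS hST hw n n0 h2 hn0]
  have h1 : ‖D.N z‖ = ‖z‖ * ‖D.N (D.δ n0)‖ := by
    conv_lhs => rw [hz']
    rw [map_smul, norm_smul, norm_norm]
  rw [h1, D.hN, norm_I_zpow, mul_one]

end Pool.Agent.Lib.MP_b6bd4b_an.Attain
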