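import Mathlib
import Pool.Agent.Lib.MP_b6bd4b_an.Attain

/-!
The helix space: the dual of the space of trigonometric functions
`φ ↦ Re (c̄ e^{iφ} + d̄ e^{ikφ})` on `{jπ/(2k)}` with the maximum norm.
-/

open Complex
open scoped ComplexConjugate

namespace Pool.Agent.Lib.MP_b6bd4b_an.Space

open Helix Attain

/-- the functions `j ↦ Re (c̄ ζ^j + d̄ i^j)` -/
noncomputable def L (k : ℕ) : (ℂ × ℂ) →ₗ[ℝ] (Fin (4 * k) → ℝ) where
  toFun p j := (conj p.1 * zt k ^ ((j : ℕ) : ℤ) + conj p.2 * I ^ ((j : ℕ) : ℤ)).re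
  map_add' p q := by
    ext j
    simp only [Prod.fst_add, Prod.snd_add, map_add, add_mul, add_re, Pi.add_apply]
    ring
  map_smul' r p := by
    ext j
    simp only [Prod.smul_fst, Prod.smul_snd, Complex.real_smul, map_mul, conj_ofReal, mul_assoc,
      add_re, re_ofReal_mul, Pi.smul_apply, smul_eq_mul, RingHom.id_apply]
    ring

/-- the space of functions -/
noncomputable abbrev W (k : ℕ) : Submodule ℝ (Fin (4 * k) → ℝ) := LinearMap.range (L k)

/-- the element of `W k` -/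
noncomputable def e (k : ℕ) (p : ℂ × ℂ) : W k := ⟨L k p, LinearMap.mem_range_self _ p⟩

theorem e_add (k : ℕ) (p q : ℂ × ℂ) : e k (p + q) = e k p + e k q := by
  apply Subtype.ext
  simp [e, map_add]

theorem e_smul (k : ℕ) (r : ℝ) (p : ℂ × ℂ) : e k (r • p) = r • e k p := by
  apply Subtype.ext
  simp only [e, map_smul, Submodule.coe_smul]

theorem e_surj (k : ℕ) (x : W k) : ∃ p, x = e k p := by
  obtain ⟨p, hp⟩ := x.2
  exact ⟨p, Subtype.ext hp.symm⟩

/-- the helix space -/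
abbrev Y (k : ℕ) : Type := StrongDual ℝ (W k)

/-- first coordinate -/
noncomputable def cT (k : ℕ) : Y k →L[ℝ] ℂ :=
  ofRealCLM.comp (ContinuousLinearMap.apply ℝ ℝ (e k (1, 0))) +
    (ContinuousLinearMap.smulRight (ContinuousLinearMap.apply ℝ ℝ (e k (I, 0))) I)

/-- second coordinate -/
noncomputable def cN (k : ℕ) : Y k →L[ℝ] ℂ :=
  ofRealCLM.comp (ContinuousLinearMap.apply ℝ ℝ (e k (0, 1))) +
    (ContinuousLinearMap.smulRight (ContinuousLinearMap.apply ℝ ℝ (e k (0, I))) I)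

theorem cT_apply (k : ℕ) (y : Y k) : cT k y = (y (e k (1, 0)) : ℂ) + (y (e k (I, 0)) : ℂ) * I := by
  simp [cT, Complex.real_smul]

theorem cN_apply (k : ℕ) (y : Y k) : cN k y = (y (e k (0, 1)) : ℂ) + (y (e k (0, I)) : ℂ) * I := by
  simp [cN, Complex.real_smul]

theorem eval_T (k : ℕ) (y : Y k) (c : ℂ) : y (e k (c, 0)) = (conj c * cT k y).re := by
  have h : ((c, 0) : ℂ × ℂ) = c.re • ((1, 0) : ℂ × ℂ) + c.im • ((I, 0) : ℂ × ℂ) := by
    ext <;> simp
  rw [h, e_add, e_smul, e_smul, map_add, map_smul, map_smul, cT_apply]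
  simp

theorem eval_N (k : ℕ) (y : Y k) (c : ℂ) : y (e k (0, c)) = (conj c * cN k y).re := by
  have h : ((0, c) : ℂ × ℂ) = c.re • ((0, 1) : ℂ × ℂ) + c.im • ((0, I) : ℂ × ℂ) := by
    ext <;> simp
  rw [h, e_add, e_smul, e_smul, map_add, map_smul, map_smul, cN_apply]
  simp

theorem inj (k : ℕ) (y : Y k) (h1 : cT k y = 0) (h2 : cN k y = 0) : y = 0 := by
  ext x
  obtain ⟨⟨c, d⟩, rfl⟩ := e_surj k x
  have h : ((c, d) : ℂ × ℂ) = (c, 0) + (0, d) := by simp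
  rw [h, e_add, map_add, eval_T, eval_N, h1, h2]
  simp

theorem norm_e_T (k : ℕ) (c : ℂ) : ‖e k (c, 0)‖ ≤ ‖c‖ := by
  rw [Submodule.coe_norm, pi_norm_le_iff_of_nonneg (norm_nonneg _)]
  intro j
  have h : (e k (c, 0) : Fin (4 * k) → ℝ) j = (conj c * zt k ^ ((j : ℕ) : ℤ)).re := by
    simp [e, L]
  rw [h, Real.norm_eq_abs]
  refine (Complex.abs_re_le_norm _).trans ?_
  rw [norm_mul, norm_zt_zpow, mul_one, RCLike.norm_conj]

theorem norm_e_N (k : ℕ) (c : ℂ) : ‖e k (0, c)‖ ≤ ‖c‖ := by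
  rw [Submodule.coe_norm, pi_norm_le_iff_of_nonneg (norm_nonneg _)]
  intro j
  have h : (e k (0, c) : Fin (4 * k) → ℝ) j = (conj c * I ^ ((j : ℕ) : ℤ)).re := by
    simp [e, L]
  rw [h, Real.norm_eq_abs]
  refine (Complex.abs_re_le_norm _).trans ?_
  rw [norm_mul, norm_I_zpow, mul_one, RCLike.norm_conj]

theorem norm_cT (k : ℕ) (y : Y k) : ‖cT k y‖ ≤ ‖y‖ := by
  by_cases h0 : cT k y = 0
  · rw [h0, norm_zero]; positivity
  have h1 := eval_T k y (cT k y)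
  have h2 : (conj (cT k y) * cT k y).re = ‖cT k y‖ ^ 2 := by
    rw [mul_comm, Complex.mul_conj, ofReal_re, Complex.normSq_eq_norm_sq]
  rw [h2] at h1
  have h3 := y.le_opNorm (e k (cT k y, 0))
  have h4 := norm_e_T k (cT k y)
  have h5 : ‖cT k y‖ ^ 2 ≤ ‖y‖ * ‖cT k y‖ := by
    calc ‖cT k y‖ ^ 2 = y (e k (cT k y, 0)) := h1.symm
      _ ≤ ‖y (e k (cT k y, 0))‖ := le_abs_self _
      _ ≤ ‖y‖ * ‖e k (cT k y, 0)‖ := h3
      _ ≤ ‖y‖ * ‖cT k y‖ := by gcongr
  have h6 : 0 < ‖cT k y‖ := norm_pos_iff.2 h0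
  nlinarith

theorem norm_cN (k : ℕ) (y : Y k) : ‖cN k y‖ ≤ ‖y‖ := by
  by_cases h0 : cN k y = 0
  · rw [h0, norm_zero]; positivity
  have h1 := eval_N k y (cN k y)
  have h2 : (conj (cN k y) * cN k y).re = ‖cN k y‖ ^ 2 := by
    rw [mul_comm, Complex.mul_conj, ofReal_re, Complex.normSq_eq_norm_sq]
  rw [h2] at h1
  have h3 := y.le_opNorm (e k (0, cN k y))
  have h4 := norm_e_N k (cN k y)
  have h5 : ‖cN k y‖ ^ 2 ≤ ‖y‖ * ‖cN k y‖ := by
    calc ‖cN k y‖ ^ 2 = y (e k (0, cN k y)) := h1.symm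
      _ ≤ ‖y (e k (0, cN k y))‖ := le_abs_self _
      _ ≤ ‖y‖ * ‖e k (0, cN k y)‖ := h3
      _ ≤ ‖y‖ * ‖cN k y‖ := by gcongr
  have h6 : 0 < ‖cN k y‖ := norm_pos_iff.2 h0
  nlinarith

/-- the reduction of an integer modulo `4k` -/
noncomputable def idx (k : ℕ) (hk : 0 < k) (n : ℤ) : Fin (4 * k) :=
  ⟨(n % (4 * k)).toNat, by
    have h4 : (0 : ℤ) < 4 * k := by positivity
    have h1 := Int.emod_nonneg n h4.ne'
    have h2 := Int.emod_lt_of_pos n h4
    omega⟩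

theorem idx_coe (k : ℕ) (hk : 0 < k) (n : ℤ) : (((idx k hk n : Fin (4 * k)) : ℕ) : ℤ) = n % (4 * k) := by
  have h4 : (0 : ℤ) < 4 * k := by positivity
  have h1 := Int.emod_nonneg n h4.ne'
  simp only [idx]
  omega

theorem zt_idx (k : ℕ) (hk : 0 < k) (n : ℤ) : zt k ^ (((idx k hk n : Fin (4 * k)) : ℕ) : ℤ) = zt k ^ n := by
  rw [idx_coe]
  conv_rhs => rw [← Int.mul_ediv_add_emod n (4 * k)]
  rw [zpow_add₀ (zt_ne k), zpow_mul, zt_pow_four hk, one_zpow, one_mul]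

theorem I_idx (k : ℕ) (hk : 0 < k) (n : ℤ) : (I : ℂ) ^ (((idx k hk n : Fin (4 * k)) : ℕ) : ℤ) = I ^ n := by
  rw [I_zpow_eq hk, zt_idx, ← I_zpow_eq hk]

/-- the helix points -/
noncomputable def δ (k : ℕ) (hk : 0 < k) (n : ℤ) : Y k :=
  (ContinuousLinearMap.proj (R := ℝ) (φ := fun _ : Fin (4 * k) => ℝ) (idx k hk n)).comp
    (W k).subtypeL

theorem δ_apply (k : ℕ) (hk : 0 < k) (n : ℤ) (p : ℂ × ℂ) :
    δ k hk n (e k p) = (conj p.1 * zt k ^ n + conj p.2 * I ^ n).re := by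
  have h : δ k hk n (e k p) = (conj p.1 * zt k ^ (((idx k hk n : Fin (4 * k)) : ℕ) : ℤ)
      + conj p.2 * I ^ (((idx k hk n : Fin (4 * k)) : ℕ) : ℤ)).re := by
    simp [δ, e, L]
  rw [h, zt_idx, I_idx]

theorem norm_δ (k : ℕ) (hk : 0 < k) (n : ℤ) : ‖δ k hk n‖ ≤ 1 := by
  apply ContinuousLinearMap.opNorm_le_bound _ zero_le_one
  intro x
  rw [one_mul]
  exact norm_le_pi_norm (x : Fin (4 * k) → ℝ) (idx k hk n)

theorem rep (k : ℕ) (hk : 0 < k) (y : Y k) : ∃ a : Fin (4 * k) → ℝ,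
    y = ∑ j, a j • δ k hk ((j : ℕ) : ℤ) ∧ ∑ j, |a j| ≤ ‖y‖ := by
  obtain ⟨g, hg1, hg2⟩ := exists_extension_norm_eq (W k) y
  refine ⟨fun j => g (Pi.single j 1), ?_, ?_⟩
  · ext x
    rw [← hg1 x]
    have h1 : (x : Fin (4 * k) → ℝ) = ∑ j, (x : Fin (4 * k) → ℝ) j • Pi.single j (1 : ℝ) := by
      ext i
      simp [Finset.sum_apply, Pi.single_apply]
    conv_lhs => rw [h1]
    rw [map_sum, ContinuousLinearMap.sum_apply]
    apply Finset.sum_congr rfl
    intro j _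
    rw [map_smul, ContinuousLinearMap.smul_apply, smul_eq_mul, smul_eq_mul, mul_comm]
    congr 1
    obtain ⟨p, rfl⟩ := e_surj k x
    rw [δ_apply]
    simp [e, L]
  · rw [← hg2]
    have h1 : ∑ j, |g (Pi.single j 1)| = g (fun j => SignType.sign (g (Pi.single j 1))) := by
      have h2 : (fun j => ((SignType.sign (g (Pi.single j 1)) : SignType) : ℝ))
          = ∑ j, ((SignType.sign (g (Pi.single j 1)) : SignType) : ℝ) • Pi.single j (1 : ℝ) := by
        ext i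
        simp [Finset.sum_apply, Pi.single_apply]
      rw [h2, map_sum]
      apply Finset.sum_congr rfl
      intro j _
      rw [map_smul, smul_eq_mul, sign_mul_self]
    rw [h1]
    calc g (fun j => ((SignType.sign (g (Pi.single j 1)) : SignType) : ℝ))
        ≤ ‖g (fun j => ((SignType.sign (g (Pi.single j 1)) : SignType) : ℝ))‖ := le_abs_self _
      _ ≤ ‖g‖ * ‖(fun j => ((SignType.sign (g (Pi.single j 1)) : SignType) : ℝ))‖ := g.le_opNorm _
      _ ≤ ‖g‖ * 1 := by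
          gcongr
          rw [pi_norm_le_iff_of_nonneg zero_le_one]
          intro j
          rcases SignType.trichotomy (SignType.sign (g (Pi.single j 1))) with h | h | h <;>
            rw [h] <;> simp
      _ = ‖g‖ := mul_one _

/-- the helix data -/
noncomputable def data (k : ℕ) (hk : 0 < k) : Data k (Y k) where
  T := cT k
  N := cN k
  δ := δ k hk
  hT n := by
    rw [cT_apply, δ_apply, δ_apply]
    apply Complex.ext <;> simp
  hN n := by
    rw [cN_apply, δ_apply, δ_apply]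
    apply Complex.ext <;> simp
  inj := inj k
  hδ := norm_δ k hk
  nT := norm_cT k
  nN := norm_cN k
  rep := rep k hk

end Pool.Agent.Lib.MP_b6bd4b_an.Space
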